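import Mathlib

namespace Pool.Agent.Results.MP_9f0ab0_gt.Unstable

open Set MeasureTheory Module Metric
open scoped RealInnerProductSpace Pointwise

abbrev E (d : ℕ) := EuclideanSpace ℝ (Fin d)

def IsPolytope {d : ℕ} (P : Set (E d)) : Prop :=
  (∃ (n : ℕ) (a : Fin n → E d) (b : Fin n → ℝ), P = {x | ∀ i, ⟪a i, x⟫ ≤ b i}) ∧
    IsCompact P ∧ (interior P).Nonempty

def facets {d : ℕ} (P : Set (E d)) : Set (Set (E d)) :=
  {F | IsExposed ℝ P F ∧ F ≠ P ∧ finrank ℝ (vectorSpan ℝ F) = d - 1}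

def Isotropic {d : ℕ} (P : Set (E d)) : Prop :=
  (∀ i, (volume P).toReal⁻¹ * ∫ x in P, x i = 0) ∧
    ∀ i j, (volume P).toReal⁻¹ * ∫ x in P, x i * x j = if i = j then 1 else 0

noncomputable def area {d : ℕ} (P : Set (E d)) (θ : E d) : ℝ :=
  (μHE[d - 1] (P ∩ {x | ⟪θ, x⟫ = 0})).toReal / (volume P).toReal

lemma finrank_perp {d : ℕ} {v : E d} (hv : v ≠ 0) : finrank ℝ (ℝ ∙ v)ᗮ = d - 1 := by
  have h := (ℝ ∙ v).finrank_add_finrank_orthogonal
  rw [finrank_span_singleton hv, finrank_euclideanSpace_fin] at h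
  omega

lemma facets_le {d : ℕ} (hd : 2 ≤ d) {ι : Type} [Fintype ι] [Nonempty ι] (a : ι → E d) (b : ι → ℝ)
    (ha : ∀ i, a i ≠ 0) :
    (facets {x : E d | ∀ i, ⟪a i, x⟫ ≤ b i}).encard ≤ Fintype.card ι := by
  classical
  set P : Set (E d) := {x : E d | ∀ i, ⟪a i, x⟫ ≤ b i} with hP
  have key : facets P ⊆ range (fun i => P ∩ {x | ⟪a i, x⟫ = b i}) := by
    rintro F ⟨hF, hne, hdim⟩
    have hFne : F.Nonempty := by
      rcases F.eq_empty_or_nonempty with rfl | h
      · rw [vectorSpan_empty, finrank_bot] at hdim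
        omega
      · exact h
    obtain ⟨l, hl⟩ := hF hFne
    obtain ⟨w, hw⟩ : ∃ w : E d, ∀ x, l x = ⟪w, x⟫ :=
      ⟨(InnerProductSpace.toDual ℝ (E d)).symm l, fun x => by simp⟩
    have hw0 : w ≠ 0 := by
      rintro rfl
      apply hne
      rw [hl]
      ext x
      simp [hw]
    have hmem : ∀ x, x ∈ F ↔ x ∈ P ∧ ∀ y ∈ P, ⟪w, y⟫ ≤ ⟪w, x⟫ := by
      intro x
      rw [hl]
      simp only [hw, mem_ofPred_eq]
    -- some constraint is tight on all of F
    have htight : ∃ i, ∀ x ∈ F, ⟪a i, x⟫ = b i := by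
      by_contra hcon
      push Not at hcon
      choose y hyF hy using hcon
      have hyP : ∀ i j, ⟪a j, y i⟫ ≤ b j := fun i => ((hmem _).1 (hyF i)).1
      have hc : (0 : ℝ) < Fintype.card ι := by exact_mod_cast Fintype.card_pos
      set z : E d := (Fintype.card ι : ℝ)⁻¹ • ∑ i, y i with hz
      have hzlt : ∀ j, ⟪a j, z⟫ < b j := by
        intro j
        rw [hz, inner_smul_right, inner_sum, inv_mul_lt_iff₀ hc]
        have : ∑ i, ⟪a j, y i⟫ < ∑ _i : ι, b j :=
          Finset.sum_lt_sum (fun i _ => hyP i j) ⟨j, Finset.mem_univ _,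
            lt_of_le_of_ne (hyP j j) (hy j)⟩
        simpa using this
      obtain ⟨i0⟩ := ‹Nonempty ι›
      have hwy : ∀ i, ⟪w, y i⟫ = ⟪w, y i0⟫ := fun i =>
        le_antisymm (((hmem _).1 (hyF i0)).2 _ ((hmem _).1 (hyF i)).1)
          (((hmem _).1 (hyF i)).2 _ ((hmem _).1 (hyF i0)).1)
      have hwz : ⟪w, z⟫ = ⟪w, y i0⟫ := by
        rw [hz, inner_smul_right, inner_sum]
        simp only [hwy, Finset.sum_const, Finset.card_univ, nsmul_eq_mul]
        field_simp
      have hev : ∀ᶠ t : ℝ in nhds 0, ∀ j, ⟪a j, z + t • w⟫ < b j := by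
        rw [Filter.eventually_all]
        intro j
        have hcont : Continuous fun t : ℝ => ⟪a j, z + t • w⟫ := by fun_prop
        exact hcont.continuousAt.eventually_lt continuousAt_const (by simpa using hzlt j)
      obtain ⟨t, ht, ht0⟩ := ((hev.filter_mono nhdsWithin_le_nhds).and
        (self_mem_nhdsWithin : Ioi (0 : ℝ) ∈ nhdsWithin (0 : ℝ) (Ioi 0))).exists
      have h1 := ((hmem _).1 (hyF i0)).2 (z + t • w) (fun j => (ht j).le)
      rw [inner_add_right, hwz, inner_smul_right] at h1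
      have h2 : 0 < ⟪w, w⟫ := real_inner_self_pos.2 hw0
      have h3 : 0 < t := ht0
      nlinarith [mul_pos h3 h2]
    obtain ⟨i, hi⟩ := htight
    obtain ⟨x0, hx0⟩ := hFne
    have hsp : ∀ v : E d, v ≠ 0 → (∀ x ∈ F, ⟪v, x⟫ = ⟪v, x0⟫) → vectorSpan ℝ F = (ℝ ∙ v)ᗮ := by
      intro v hv h
      apply Submodule.eq_of_le_of_finrank_eq _ (by rw [hdim, finrank_perp hv])
      rw [vectorSpan_def, Submodule.span_le]
      rintro _ ⟨p, hp, q, hq, rfl⟩
      simp only [SetLike.mem_coe, Submodule.mem_orthogonal_singleton_iff_inner_right, vsub_eq_sub,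
        inner_sub_right, h p hp, h q hq, sub_self]
    have e1 := hsp (a i) (ha i) (fun x hx => by rw [hi x hx, hi x0 hx0])
    have e2 := hsp w hw0 (fun x hx => le_antisymm (((hmem _).1 hx0).2 _ ((hmem _).1 hx).1)
      (((hmem _).1 hx).2 _ ((hmem _).1 hx0).1))
    refine ⟨i, ?_⟩
    ext x
    constructor
    · rintro ⟨hxP, hx⟩
      have hx' : ⟪a i, x⟫ = b i := hx
      have h1 : x - x0 ∈ (ℝ ∙ a i)ᗮ := by
        rw [Submodule.mem_orthogonal_singleton_iff_inner_right, inner_sub_right, hx', hi x0 hx0,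
          sub_self]
      rw [← e1, e2, Submodule.mem_orthogonal_singleton_iff_inner_right, inner_sub_right] at h1
      refine (hmem x).2 ⟨hxP, fun y hy => ?_⟩
      have := ((hmem _).1 hx0).2 y hy
      linarith
    · intro hx
      exact ⟨((hmem _).1 hx).1, hi x hx⟩
  refine (encard_le_encard key).trans ?_
  rw [← image_univ]
  refine (encard_image_le _ _).trans ?_
  simp

lemma cone {d : ℕ} (hd : 1 ≤ d) {K : Set (E d)} (hK : Convex ℝ K) (hm : MeasurableSet K)
    {θ q : E d} (hθ : ‖θ‖ = 1) (hq : q ∈ K) (hh : ⟪θ, q⟫ ≠ 0) :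
    ENNReal.ofReal (|⟪θ, q⟫| / (4 * d)) * μHE[d - 1] (K ∩ {x | ⟪θ, x⟫ = 0}) ≤ volume K := by
  set h := ⟪θ, q⟫ with hhdef
  have hθθ : ⟪θ, θ⟫ = 1 := by rw [real_inner_self_eq_norm_sq, hθ]; norm_num
  have hv : h • θ ≠ 0 := smul_ne_zero hh (by rintro rfl; simp at hθ)
  have hs := EuclideanGeometry.euclideanHausdorffMeasure_eq_lintegral (0 : E d) hv hm
  rw [InnerProductSpace.euclideanHausdorffMeasure_eq_volume, finrank_euclideanSpace_fin] at hs
  set A := μHE[d - 1] (K ∩ {x | ⟪θ, x⟫ = 0}) with hA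
  have hd' : (1 : ℝ) ≤ d := by exact_mod_cast hd
  have hsl : ∀ x ∈ Icc (0 : ℝ) (1 / (2 * d)), ENNReal.ofReal (1 / 2) * A ≤
      μHE[d - 1] (K ∩ AffineSubspace.mk' (x • h • θ +ᵥ (0 : E d)) (ℝ ∙ h • θ)ᗮ) := by
    rintro x ⟨hx0, hx1⟩
    have hx2 : x * (2 * d) ≤ 1 := by rwa [le_div_iff₀ (by positivity)] at hx1
    have hx3 : x ≤ 1 / 2 := by nlinarith
    have hc : (1 - x) ≠ 0 := by linarith
    have himg := euclideanHausdorffMeasure_homothety_image (d - 1) q hc (K ∩ {x | ⟪θ, x⟫ = 0})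
    have hsub : AffineMap.homothety q (1 - x) '' (K ∩ {x | ⟪θ, x⟫ = 0}) ⊆
        K ∩ AffineSubspace.mk' (x • h • θ +ᵥ (0 : E d)) (ℝ ∙ h • θ)ᗮ := by
      rintro _ ⟨y, ⟨hyK, hy⟩, rfl⟩
      have hy' : ⟪θ, y⟫ = 0 := hy
      have e : AffineMap.homothety q (1 - x) y = x • q + (1 - x) • y := by
        rw [AffineMap.homothety_apply, vsub_eq_sub, vadd_eq_add]
        module
      rw [e]
      refine ⟨hK hq hyK hx0 (by linarith) (by ring), ?_⟩
      rw [SetLike.mem_coe, AffineSubspace.mem_mk',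
        Submodule.mem_orthogonal_singleton_iff_inner_right]
      simp only [vadd_eq_add, add_zero, vsub_eq_sub, inner_sub_right, inner_add_right,
        inner_smul_left, inner_smul_right, hy', hθθ, ← hhdef, conj_trivial]
      ring
    refine le_trans ?_ (measure_mono hsub)
    rw [himg, ENNReal.smul_def, smul_eq_mul]
    gcongr
    rw [ENNReal.ofReal, ENNReal.coe_le_coe, ← NNReal.coe_le_coe]
    have hb := one_add_mul_le_pow (show (-2 : ℝ) ≤ -x by linarith) (d - 1)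
    have hcast : ((d - 1 : ℕ) : ℝ) = d - 1 := by rw [Nat.cast_sub hd]; simp
    rw [hcast] at hb
    simp only [NNReal.coe_pow, coe_nnnorm, Real.norm_eq_abs, abs_of_nonneg (show 0 ≤ 1 - x by linarith)]
    rw [Real.coe_toNNReal _ (by norm_num), sub_eq_add_neg]
    nlinarith
  have hint : ENNReal.ofReal (1 / 2) * A * ENNReal.ofReal (1 / (2 * d)) ≤
      ∫⁻ x : ℝ, μHE[d - 1] (K ∩ AffineSubspace.mk' (x • h • θ +ᵥ (0 : E d)) (ℝ ∙ h • θ)ᗮ) := by
    refine le_trans ?_ (setLIntegral_le_lintegral (Icc (0 : ℝ) (1 / (2 * d))) _)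
    refine le_trans (le_of_eq ?_) (setLIntegral_mono' measurableSet_Icc hsl)
    rw [setLIntegral_const, Real.volume_Icc, sub_zero]
  rw [hs]
  refine le_trans (le_of_eq ?_) (mul_le_mul_right hint _)
  have hn : ‖h • θ‖ₑ = ENNReal.ofReal |h| := by
    rw [← ofReal_norm, norm_smul, hθ, mul_one, Real.norm_eq_abs]
  rw [hn, show |h| / (4 * d) = |h| * ((1 / 2) * (1 / (2 * d))) by field_simp; norm_num,
    ENNReal.ofReal_mul (abs_nonneg _), ENNReal.ofReal_mul (by norm_num)]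
  ring

structure Had (d : ℕ) (χ : Fin d → Fin d → ℝ) : Prop where
  sign : ∀ j i, χ j i = 1 ∨ χ j i = -1
  one : ∃ j, ∀ i, χ j i = 1
  flip : ∀ i i', i ≠ i' → ∃ c, χ c i * χ c i' = -1 ∧ ∀ j, ∃ j', ∀ l, χ j l * χ c l = χ j' l
  move : ∀ i i', ∃ π : Equiv.Perm (Fin d), π i = i' ∧ ∀ j, ∃ u : ℝ, (u = 1 ∨ u = -1) ∧
    ∀ l, χ j (π l) = u * χ j l

noncomputable def sg (a : ZMod 2) : ℝ := if a = 0 then 1 else -1

lemma sg_add (a b : ZMod 2) : sg (a + b) = sg a * sg b := by
  have h : ∀ x : ZMod 2, x = 0 ∨ x = 1 := by decide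
  have h2 : (1 : ZMod 2) + 1 = 0 := by decide
  rcases h a with rfl | rfl <;> rcases h b with rfl | rfl <;> simp [sg, h2]

lemma sg_sign (a : ZMod 2) : sg a = 1 ∨ sg a = -1 := by
  unfold sg
  split_ifs <;> simp

lemma exists_had (k : ℕ) : ∃ χ, Had (2 ^ k) χ := by
  classical
  have e : Fin (2 ^ k) ≃ (Fin k → ZMod 2) := Fintype.equivOfCardEq (by simp)
  refine ⟨fun j i => sg (∑ b, e j b * e i b), fun j i => sg_sign _, ⟨e.symm 0, fun i => ?_⟩, ?_, ?_⟩
  · simp [sg]
  · intro i i' hne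
    have : ∃ b, e i b ≠ e i' b := by
      by_contra h
      push Not at h
      exact hne (e.injective (funext h))
    obtain ⟨b, hb⟩ := this
    refine ⟨e.symm (Pi.single b 1), ?_, fun j => ⟨e.symm (e j + Pi.single b 1), fun l => ?_⟩⟩
    · have h1 : ∀ x : Fin k → ZMod 2, ∑ c, (Pi.single b 1 : Fin k → ZMod 2) c * x c = x b := by
        intro x
        rw [Finset.sum_eq_single b] <;> simp +contextual [Pi.single_apply]
      simp only [Equiv.apply_symm_apply, h1, ← sg_add]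
      have h : ∀ x y : ZMod 2, x ≠ y → x + y ≠ 0 := by decide
      simp [sg, h _ _ hb]
    · simp only [Equiv.apply_symm_apply, ← sg_add, Pi.add_apply, add_mul, Finset.sum_add_distrib]
  · intro i i'
    refine ⟨e.trans ((Equiv.addRight (e i' - e i)).trans e.symm), by simp, fun j =>
      ⟨sg (∑ b, e j b * (e i' - e i) b), sg_sign _, fun l => ?_⟩⟩
    simp only [Equiv.trans_apply, Equiv.apply_symm_apply, Equiv.coe_addRight, Pi.add_apply, mul_add,
      Finset.sum_add_distrib, ← sg_add]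
    rw [add_comm]

noncomputable def sp {d : ℕ} (π : Equiv.Perm (Fin d)) (u : Fin d → ℝ) (hu : ∀ l, u l = 1 ∨ u l = -1) :
    E d →ₗᵢ[ℝ] E d where
  toFun x := WithLp.toLp 2 fun l => u l * x (π l)
  map_add' x y := by ext l; simp [mul_add]
  map_smul' c x := by ext l; simp; ring
  norm_map' x := by
    rw [← sq_eq_sq₀ (norm_nonneg _) (norm_nonneg _), EuclideanSpace.real_norm_sq_eq,
      EuclideanSpace.real_norm_sq_eq, ← Equiv.sum_comp π (fun l => x l ^ 2)]
    refine Finset.sum_congr rfl fun l _ => ?_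
    rcases hu l with h | h <;> simp [h]

lemma sp_apply {d : ℕ} (π : Equiv.Perm (Fin d)) (u : Fin d → ℝ) (hu : ∀ l, u l = 1 ∨ u l = -1)
    (x : E d) (l : Fin d) : sp π u hu x l = u l * x (π l) := rfl

lemma inv_int {d : ℕ} (T : E d →ₗᵢ[ℝ] E d) {K : Set (E d)} (hK : ∀ x, T x ∈ K ↔ x ∈ K)
    (g : E d → ℝ) : ∫ x in K, g (T x) = ∫ x in K, g x := by
  let T' := T.toLinearIsometryEquiv rfl
  have h := T'.measurePreserving.setIntegral_preimage_emb
    T'.toHomeomorph.measurableEmbedding g K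
  have hp : T' ⁻¹' K = K := Set.ext hK
  rw [hp] at h
  exact h

def body {d : ℕ} (χ : Fin d → Fin d → ℝ) (c : ℝ) : Set (E d) :=
  {x | (∀ i, |x i| ≤ 1) ∧ ∀ j, |∑ i, χ j i * x i| ≤ c}

lemma abs_sign {u : ℝ} (hu : u = 1 ∨ u = -1) (x : ℝ) : |u * x| = |x| := by
  rcases hu with rfl | rfl <;> simp

lemma body_moments {d : ℕ} {χ : Fin d → Fin d → ℝ} (H : Had d χ) (c : ℝ) :
    (∀ i, ∫ x in body χ c, x i = 0) ∧ (∀ i j, i ≠ j → ∫ x in body χ c, x i * x j = 0) ∧
      ∀ i j, ∫ x in body χ c, x i * x i = ∫ x in body χ c, x j * x j := by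
  refine ⟨fun i => ?_, fun i j hij => ?_, fun i j => ?_⟩
  · have h := inv_int (sp (d := d) 1 (fun _ => -1) (fun _ => Or.inr rfl)) (K := body χ c)
      (fun x => by simp [body, sp_apply, Finset.sum_neg_distrib]) (fun x => x i)
    simp only [sp_apply, Equiv.Perm.coe_one, id, neg_mul, one_mul, integral_neg] at h
    linarith
  · obtain ⟨a, ha, hj⟩ := H.flip i j hij
    have hf : ∀ x, x ∈ body χ c → sp 1 (χ a) (H.sign a) x ∈ body χ c := by
      rintro x ⟨h1, h2⟩
      refine ⟨fun l => ?_, fun j => ?_⟩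
      · rw [sp_apply, abs_sign (H.sign a l)]
        exact h1 _
      · obtain ⟨j', hj'⟩ := hj j
        simp only [sp_apply, ← mul_assoc, hj', Equiv.Perm.coe_one, id]
        exact h2 j'
    have hi : ∀ x, sp 1 (χ a) (H.sign a) (sp 1 (χ a) (H.sign a) x) = x := by
      intro x
      ext l
      simp only [sp_apply, Equiv.Perm.coe_one, id]
      rcases H.sign a l with h | h <;> simp [h]
    have h := inv_int (sp (d := d) 1 (χ a) (H.sign a)) (K := body χ c)
      (fun x => ⟨fun hx => hi x ▸ hf _ hx, hf x⟩) (fun x => x i * x j)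
    have e : ∀ x : E d, χ a i * x i * (χ a j * x j) = -(x i * x j) := by
      intro x
      linear_combination (x i * x j) * ha
    simp only [sp_apply, Equiv.Perm.coe_one, id, e, integral_neg] at h
    linarith
  · obtain ⟨π, hπ, hj⟩ := H.move j i
    have h := inv_int (sp (d := d) π (fun _ => 1) (fun _ => Or.inl rfl)) (K := body χ c)
      (fun x => by
        simp only [body, sp_apply, one_mul, mem_ofPred_eq]
        refine and_congr ⟨fun h l => by simpa using h (π.symm l), fun h l => h _⟩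
          (forall_congr' fun a => ?_)
        obtain ⟨u, hu, hul⟩ := hj a
        rw [← Equiv.sum_comp π (fun l => χ a l * x l)]
        simp only [hul, mul_assoc, ← Finset.mul_sum, abs_sign hu]) (fun x => x j * x j)
    simpa only [sp_apply, one_mul, hπ] using h

lemma smul_body {d : ℕ} (χ : Fin d → Fin d → ℝ) (c : ℝ) {m : ℝ} (hm : 0 < m) (x : E d) :
    x ∈ m • body χ c ↔ (∀ i, |x i| ≤ m) ∧ ∀ j, |∑ i, χ j i * x i| ≤ m * c := by
  rw [mem_smul_set_iff_inv_smul_mem₀ hm.ne']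
  simp only [body, mem_ofPred_eq, PiLp.smul_apply, smul_eq_mul, mul_left_comm _ m⁻¹,
    ← Finset.mul_sum, abs_mul, abs_of_pos (inv_pos.2 hm), inv_mul_le_iff₀ hm, mul_one]

lemma body_closed {d : ℕ} (χ : Fin d → Fin d → ℝ) (c : ℝ) : IsClosed (body χ c) := by
  simp only [body, ofPred_and, ofPred_forall]
  exact (isClosed_iInter fun i => isClosed_le (by fun_prop) continuous_const).inter
    (isClosed_iInter fun i => isClosed_le (by fun_prop) continuous_const)

lemma body_compact {d : ℕ} (χ : Fin d → Fin d → ℝ) (c : ℝ) : IsCompact (body χ c) := by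
  refine isCompact_of_isClosed_isBounded (body_closed χ c)
    ((isBounded_closedBall (x := (0 : E d)) (r := d + 1)).subset ?_)
  rintro x ⟨h, -⟩
  rw [mem_closedBall_zero_iff, ← sq_le_sq₀ (norm_nonneg _) (by positivity),
    EuclideanSpace.real_norm_sq_eq]
  have : ∑ i, x i ^ 2 ≤ ∑ _i : Fin d, (1 : ℝ) :=
    Finset.sum_le_sum fun i _ => by rw [← sq_abs]; nlinarith [h i, abs_nonneg (x i)]
  simp only [Finset.sum_const, Finset.card_univ, Fintype.card_fin, nsmul_eq_mul, mul_one] at this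
  nlinarith [(Nat.cast_nonneg d : (0 : ℝ) ≤ d)]

lemma body_convex {d : ℕ} (χ : Fin d → Fin d → ℝ) (c : ℝ) : Convex ℝ (body χ c) := by
  rintro x ⟨hx1, hx2⟩ y ⟨hy1, hy2⟩ a b ha hb hab
  have key : ∀ p q r : ℝ, |p| ≤ r → |q| ≤ r → |a * p + b * q| ≤ r := by
    intro p q r hp hq
    rw [abs_le] at *
    constructor <;> nlinarith [mul_nonneg ha (sub_nonneg.2 hp.1), mul_nonneg hb (sub_nonneg.2 hq.1),
      mul_nonneg ha (sub_nonneg.2 hp.2), mul_nonneg hb (sub_nonneg.2 hq.2)]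
  refine ⟨fun i => key _ _ _ (hx1 i) (hy1 i), fun j => ?_⟩
  have := key _ _ _ (hx2 j) (hy2 j)
  simpa only [PiLp.add_apply, PiLp.smul_apply, smul_eq_mul, mul_add, Finset.sum_add_distrib,
    mul_left_comm _ a, mul_left_comm _ b, ← Finset.mul_sum] using this

lemma body_poly {d : ℕ} (hd : 4 ≤ d) {χ : Fin d → Fin d → ℝ} (H : Had d χ) {c : ℝ} (hc : 0 < c)
    {m : ℝ} (hm : 0 < m) :
    IsPolytope (m • body χ c) ∧ m • body χ c = -(m • body χ c) ∧
      (facets (m • body χ c)).encard ≤ (d ^ 2 : ℕ) := by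
  classical
  let a : Bool × Bool × Fin d → E d := fun p =>
    (if p.1 then (1 : ℝ) else -1) • (if p.2.1 then EuclideanSpace.single p.2.2 1
      else WithLp.toLp 2 (χ p.2.2))
  let b : Bool × Bool × Fin d → ℝ := fun p => if p.2.1 then m else m * c
  have hin : ∀ (j : Fin d) (x : E d), ⟪WithLp.toLp 2 (χ j), x⟫ = ∑ i, χ j i * x i := by
    intro j x
    simp [PiLp.inner_apply, mul_comm]
  have hrep : m • body χ c = {x | ∀ p, ⟪a p, x⟫ ≤ b p} := by
    ext x
    rw [smul_body χ c hm]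
    simp only [mem_ofPred_eq, Prod.forall, Bool.forall_bool, a, b, inner_smul_left, hin,
      EuclideanSpace.inner_single_left, abs_le, conj_trivial, Bool.false_eq_true, if_false, if_true,
      one_mul, neg_mul, forall_and, neg_le]
    tauto
  have ha : ∀ p, a p ≠ 0 := by
    rintro ⟨p, q, j⟩
    refine smul_ne_zero (by split_ifs <;> norm_num) ?_
    intro h
    have := congrArg (fun v : E d => v j) h
    cases q
    · rcases H.sign j j with h' | h' <;> simp [h'] at this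
    · simp at this
  haveI : Nonempty (Bool × Bool × Fin d) := ⟨(true, true, ⟨0, by omega⟩)⟩
  refine ⟨⟨?_, (body_compact χ c).smul m, ⟨0, ?_⟩⟩, ?_, ?_⟩
  · let e := Fintype.equivFin (Bool × Bool × Fin d)
    refine ⟨_, a ∘ e.symm, b ∘ e.symm, ?_⟩
    rw [hrep]
    ext x
    exact ⟨fun h i => h _, fun h p => by simpa using h (e p)⟩
  · rw [hrep, mem_interior_iff_mem_nhds]
    have : ∀ᶠ x : E d in nhds 0, ∀ p, ⟪a p, x⟫ < b p := by
      rw [Filter.eventually_all]
      intro p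
      have hcont : Continuous fun x : E d => ⟪a p, x⟫ := by fun_prop
      refine hcont.continuousAt.eventually_lt continuousAt_const ?_
      simp only [inner_zero_right, b]
      split_ifs <;> positivity
    exact this.mono fun x hx p => (hx p).le
  · ext x
    rw [mem_neg, smul_body χ c hm, smul_body χ c hm]
    simp [Finset.sum_neg_distrib]
  · rw [hrep]
    refine (facets_le (by omega) a b ha).trans ?_
    simp only [Fintype.card_prod, Fintype.card_bool, Fintype.card_fin, Nat.cast_le]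
    nlinarith

lemma iso_smul {d : ℕ} {χ : Fin d → Fin d → ℝ} (H : Had d χ) {c m : ℝ} (hm : 0 < m) (i0 : Fin d)
    (hV : 0 < (volume (body χ c)).toReal)
    (h : m ^ 2 * ∫ x in body χ c, x i0 * x i0 = (volume (body χ c)).toReal) :
    Isotropic (m • body χ c) := by
  obtain ⟨h1, h2, h3⟩ := body_moments H c
  have hs : ∀ f : E d → ℝ, ∫ x in m • body χ c, f x = m ^ d * ∫ x in body χ c, f (m • x) := by
    intro f
    rw [Measure.setIntegral_comp_smul_of_pos volume f _ hm, finrank_euclideanSpace_fin, smul_eq_mul]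
    field_simp
  have hv : (volume (m • body χ c)).toReal = m ^ d * (volume (body χ c)).toReal := by
    rw [Measure.addHaar_smul, finrank_euclideanSpace_fin, ENNReal.toReal_mul,
      ENNReal.toReal_ofReal (abs_nonneg _), abs_of_pos (by positivity)]
  refine ⟨fun i => ?_, fun i j => ?_⟩
  · rw [hs]
    simp only [PiLp.smul_apply, smul_eq_mul, integral_const_mul, h1, mul_zero]
  · rw [hs, hv]
    have e : ∀ x : E d, m * x i * (m * x j) = m ^ 2 * (x i * x j) := fun x => by ring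
    simp only [PiLp.smul_apply, smul_eq_mul, e, integral_const_mul]
    split_ifs with hij
    · subst hij
      rw [h3 i i0, h]
      field_simp
    · rw [h2 i j hij]
      simp

lemma area_smul {d : ℕ} (hd : 1 ≤ d) (K : Set (E d)) {m : ℝ} (hm : 0 < m) (θ : E d) :
    area (m • K) θ = area K θ / m := by
  have e : m • K ∩ {x | ⟪θ, x⟫ = 0} = m • (K ∩ {x | ⟪θ, x⟫ = 0}) := by
    ext x
    simp only [mem_inter_iff, mem_smul_set_iff_inv_smul_mem₀ hm.ne', mem_ofPred_eq,
      inner_smul_right, mul_eq_zero, inv_eq_zero, hm.ne', false_or]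
  unfold area
  rw [e, Measure.euclideanHausdorffMeasure_smul₀ _ hm.ne', Measure.addHaar_smul,
    finrank_euclideanSpace_fin, ENNReal.toReal_mul, ENNReal.toReal_ofReal (abs_nonneg _),
    abs_of_pos (by positivity), ENNReal.smul_def, smul_eq_mul, ENNReal.toReal_mul]
  simp only [ENNReal.coe_toReal, NNReal.coe_pow, coe_nnnorm, Real.norm_eq_abs, abs_of_pos hm]
  obtain ⟨n, rfl⟩ : ∃ n, d = n + 1 := ⟨d - 1, by omega⟩
  rw [Nat.add_sub_cancel, pow_succ]
  rcases eq_or_ne (volume K).toReal 0 with h | h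
  · simp [h]
  · field_simp

lemma mem_cube {d : ℕ} {χ : Fin d → Fin d → ℝ} (H : Had d χ) (x : E d) :
    x ∈ body χ d ↔ ∀ i, |x i| ≤ 1 := by
  refine ⟨fun h => h.1, fun h => ⟨h, fun j => (Finset.abs_sum_le_sum_abs _ _).trans ?_⟩⟩
  have : ∑ i, |χ j i * x i| ≤ ∑ _i : Fin d, (1 : ℝ) :=
    Finset.sum_le_sum fun i _ => by rw [abs_sign (H.sign j i)]; exact h i
  simpa using this

lemma cube_int {d : ℕ} {χ : Fin d → Fin d → ℝ} (H : Had d χ) (f : Fin d → ℝ → ℝ) :
    ∫ x in body χ d, ∏ i, f i (x i) = ∏ i, ∫ t in Icc (-1 : ℝ) 1, f i t := by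
  have hp := (PiLp.volume_preserving_ofLp (Fin d)).setIntegral_preimage_emb
    (MeasurableEquiv.toLp 2 (Fin d → ℝ)).symm.measurableEmbedding (fun y => ∏ i, f i (y i))
    (univ.pi fun _ => Icc (-1 : ℝ) 1)
  have e : (WithLp.ofLp : E d → Fin d → ℝ) ⁻¹' (univ.pi fun _ => Icc (-1 : ℝ) 1) = body χ d := by
    ext x
    rw [mem_cube H]
    simp [abs_le, Pi.le_def, forall_and]
  rw [e] at hp
  rw [hp, volume_pi, Measure.restrict_pi_pi, integral_fintype_prod_eq_prod]

lemma cube_vol {d : ℕ} {χ : Fin d → Fin d → ℝ} (H : Had d χ) :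
    (volume (body χ d)).toReal = 2 ^ d := by
  have h := cube_int H (fun _ _ => 1)
  norm_num at h
  exact h

lemma cube_sq {d : ℕ} {χ : Fin d → Fin d → ℝ} (H : Had d χ) (i0 : Fin d) :
    ∫ x in body χ d, x i0 * x i0 = 2 ^ d / 3 := by
  classical
  have h := cube_int H (fun i t => if i = i0 then t ^ 2 else 1)
  have e : ∀ i, ∫ t in Icc (-1 : ℝ) 1, (if i = i0 then t ^ 2 else 1) =
      2 * if i = i0 then 1 / 3 else 1 := by
    intro i
    rw [integral_Icc_eq_integral_Ioc, ← intervalIntegral.integral_of_le (by norm_num)]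
    split_ifs
    · rw [integral_pow]
      norm_num
    · norm_num
  simp only [e, Finset.prod_mul_distrib, Finset.prod_ite_eq', Finset.mem_univ, if_true,
    Finset.prod_const, Finset.card_univ, Fintype.card_fin] at h
  simp only [← sq, h]
  ring

lemma corner {d : ℕ} {χ : Fin d → Fin d → ℝ} (H : Had d χ) {s : ℝ} (hs : 0 ≤ s) :
    body χ d \ body χ (d - s) ⊆ ⋃ p : Bool × Fin d,
      closedBall (WithLp.toLp 2 fun i => (if p.1 then (1 : ℝ) else -1) * χ p.2 i) s := by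
  rintro x ⟨hx, hn⟩
  have hx1 := hx.1
  have key : ∀ h : Fin d → ℝ, (∀ i, h i = 1 ∨ h i = -1) → d - s < ∑ i, h i * x i →
      x ∈ closedBall (WithLp.toLp 2 h : E d) s := by
    intro h hh hlt
    rw [mem_closedBall, dist_eq_norm, ← sq_le_sq₀ (norm_nonneg _) hs, EuclideanSpace.real_norm_sq_eq]
    have h0 : ∀ i ∈ Finset.univ, 0 ≤ 1 - h i * x i := fun i _ => by
      have := le_abs_self (h i * x i)
      rw [abs_sign (hh i)] at this
      linarith [hx1 i]
    have h1 := Finset.sum_sq_le_sq_sum_of_nonneg h0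
    have h2 : ∑ i, (1 - h i * x i) ≤ s := by
      simp only [Finset.sum_sub_distrib, Finset.sum_const, Finset.card_univ, Fintype.card_fin,
        nsmul_eq_mul, mul_one]
      linarith
    refine le_trans (le_of_eq (Finset.sum_congr rfl fun i _ => ?_))
      (h1.trans (pow_le_pow_left₀ (Finset.sum_nonneg h0) h2 2))
    rcases hh i with e | e <;> simp [e] <;> ring
  have : ∃ j, d - s < |∑ i, χ j i * x i| := by
    by_contra h
    push Not at h
    exact hn ⟨hx1, h⟩
  obtain ⟨j, hj⟩ := this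
  rw [mem_iUnion]
  rcases lt_abs.1 hj with h | h
  · exact ⟨(true, j), key _ (fun i => by simpa using H.sign j i) (by simpa using h)⟩
  · refine ⟨(false, j), key _ (fun i => by rcases H.sign j i with e | e <;> simp [e]) ?_⟩
    simpa [Finset.sum_neg_distrib] using h

lemma ball_vol {n : ℕ} (c : E (2 * n)) (hn : 1 ≤ n) :
    volume (closedBall c (√(2 * n : ℕ) / 8)) ≤ 1 := by
  haveI : Nontrivial (E (2 * n)) := by
    haveI : Nonempty (Fin (2 * n)) := ⟨⟨0, by omega⟩⟩
    infer_instance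
  rw [InnerProductSpace.volume_closedBall_of_dim_even (k := n) finrank_euclideanSpace_fin,
    finrank_euclideanSpace_fin, ← ENNReal.ofReal_pow (by positivity),
    ← ENNReal.ofReal_mul (by positivity), ENNReal.ofReal_le_one, pow_mul, div_pow,
    Real.sq_sqrt (by positivity)]
  have h1 := Real.pow_div_factorial_le_exp (n : ℝ) (Nat.cast_nonneg n) n
  have h2 : Real.exp n = Real.exp 1 ^ n := by rw [← Real.exp_nat_mul, mul_one]
  have h3 : Real.exp 1 * (Real.pi / 32) ≤ 1 := by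
    nlinarith [Real.exp_one_lt_d9, Real.pi_le_four, Real.pi_pos, Real.exp_pos 1]
  calc (((2 * n : ℕ) : ℝ) / 8 ^ 2) ^ n * (Real.pi ^ n / n.factorial)
      = (n : ℝ) ^ n / n.factorial * (Real.pi / 32) ^ n := by
        push_cast
        rw [show (2 * (n : ℝ) / 8 ^ 2) = n / 32 by ring, div_pow, div_pow]
        ring
    _ ≤ Real.exp 1 ^ n * (Real.pi / 32) ^ n := by rw [← h2]; gcongr
    _ ≤ 1 := by rw [← mul_pow]; exact pow_le_one₀ (by positivity) h3

lemma sec_le {d : ℕ} (hd : 1 ≤ d) {K : Set (E d)} (hK : Convex ℝ K) (hm : MeasurableSet K)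
    {θ q : E d} (hθ : ‖θ‖ = 1) (hq : q ∈ K) {ρ v : ℝ} (hρ : 0 < ρ) (hh : ρ ≤ |⟪θ, q⟫|)
    (hv : volume K ≤ ENNReal.ofReal v) :
    μHE[d - 1] (K ∩ {x | ⟪θ, x⟫ = 0}) ≤ ENNReal.ofReal (4 * d / ρ * v) := by
  have hd' : (0 : ℝ) < d := by exact_mod_cast hd
  have h := (cone hd hK hm hθ hq (abs_pos.1 (hρ.trans_le hh))).trans hv
  have h2 : ENNReal.ofReal (ρ / (4 * d)) * μHE[d - 1] (K ∩ {x | ⟪θ, x⟫ = 0}) ≤ ENNReal.ofReal v :=
    le_trans (by gcongr) h
  calc μHE[d - 1] (K ∩ {x | ⟪θ, x⟫ = 0})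
      = ENNReal.ofReal (4 * d / ρ) *
        (ENNReal.ofReal (ρ / (4 * d)) * μHE[d - 1] (K ∩ {x | ⟪θ, x⟫ = 0})) := by
        rw [← mul_assoc, ← ENNReal.ofReal_mul (by positivity),
          show 4 * d / ρ * (ρ / (4 * d)) = 1 by field_simp, ENNReal.ofReal_one, one_mul]
    _ ≤ ENNReal.ofReal (4 * d / ρ) * ENNReal.ofReal v := by gcongr
    _ = _ := (ENNReal.ofReal_mul (by positivity)).symm

lemma ball_sec {d : ℕ} (hd : 1 ≤ d) (c : E d) {s : ℝ} (hs : 1 / 8 ≤ s)
    (hv : volume (closedBall c s) ≤ 1) {θ : E d} (hθ : ‖θ‖ = 1) :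
    μHE[d - 1] (closedBall c s ∩ {x | ⟪θ, x⟫ = 0}) ≤ ENNReal.ofReal (32 * d) := by
  have hθθ : ⟪θ, θ⟫ = 1 := by rw [real_inner_self_eq_norm_sq, hθ]; norm_num
  have : ∃ q ∈ closedBall c s, 1 / 8 ≤ |⟪θ, q⟫| := by
    have hn : ∀ u : ℝ, |u| ≤ s → c + u • θ ∈ closedBall c s := fun u hu => by
      simpa [norm_smul, hθ] using hu
    rcases le_total 0 ⟪θ, c⟫ with h | h
    · refine ⟨_, hn s (abs_of_nonneg (by linarith)).le, le_abs.2 (Or.inl ?_)⟩
      rw [inner_add_right, inner_smul_right, hθθ]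
      linarith
    · refine ⟨_, hn (-s) (by rw [abs_neg]; exact (abs_of_nonneg (by linarith)).le),
        le_abs.2 (Or.inr ?_)⟩
      rw [inner_add_right, inner_smul_right, hθθ]
      linarith
  obtain ⟨q, hq, hh⟩ := this
  have h := sec_le hd (convex_closedBall c s) measurableSet_closedBall hθ hq (v := 1) (by norm_num) hh
    (by simpa using hv)
  exact h.trans (le_of_eq (by rw [show 4 * (d : ℝ) / (1 / 8) * 1 = 32 * d by ring]))

lemma est {x y ε m m' : ℝ} (hx : 0 ≤ x) (hx' : x ≤ ε) (hy : 0 ≤ y) (hy' : y ≤ ε) (hε : ε ≤ 1 / 12)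
    (hm : 0 < m) (hm2 : m ^ 2 = 3) (hm' : 0 < m') (h : m' ^ 2 * (1 / 3 - y) = 1 - x) :
    1 ≤ m ∧ m ≤ 2 ∧ 1 ≤ m' ∧ m' ≤ 2 ∧ |m' - m| ≤ 6 * ε := by
  have h1 : 1 ≤ m := by nlinarith
  have h2 : m ≤ 2 := by nlinarith
  have h3 : 1 ≤ m' := by
    by_contra hc
    push Not at hc
    have : m' ^ 2 < 1 := by nlinarith
    nlinarith
  have h4 : m' ≤ 2 := by
    by_contra hc
    push Not at hc
    have : 4 < m' ^ 2 := by nlinarith
    nlinarith
  refine ⟨h1, h2, h3, h4, ?_⟩
  have e : (m' - m) * ((m' + m) * (1 / 3 - y)) = 3 * y - x := by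
    linear_combination h - (1 / 3 - y) * hm2
  have hp : 1 / 2 ≤ (m' + m) * (1 / 3 - y) := by nlinarith
  have := congrArg abs e
  rw [abs_mul, abs_of_nonneg (show 0 ≤ (m' + m) * (1 / 3 - y) by linarith)] at this
  have h5 : |3 * y - x| ≤ 3 * ε := abs_le.2 ⟨by linarith, by linarith⟩
  nlinarith [abs_nonneg (m' - m)]

lemma est2 {x ε m m' a a' τ D : ℝ} (hx : 0 ≤ x) (hx' : x ≤ ε) (hε : ε ≤ 1 / 12) (h1 : 1 ≤ m)
    (h2 : m ≤ 2) (h3 : 1 ≤ m') (h4 : m' ≤ 2) (h5 : |m' - m| ≤ 6 * ε) (ha : 0 ≤ a) (haD : a ≤ D)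
    (h6 : a' ≤ a) (h7 : a ≤ a' + τ) : |a / m - a' / (1 - x) / m'| ≤ 16 * D * ε + 4 * τ := by
  have hx1 : 1 / 2 ≤ 1 - x := by linarith
  have hden : 1 / 2 ≤ m * m' * (1 - x) := by
    have : 1 ≤ m * m' := by nlinarith
    nlinarith
  have e : a / m - a' / (1 - x) / m' =
      (a * (m' - m) - a * x * m' + (a - a') * m) / (m * m' * (1 - x)) := by
    have : 1 - x ≠ 0 := by linarith
    field_simp
    ring
  have b1 : |a * (m' - m)| ≤ D * (6 * ε) := by
    rw [abs_mul, abs_of_nonneg ha]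
    exact mul_le_mul haD h5 (abs_nonneg _) (ha.trans haD)
  have b2 : a * x * m' ≤ D * ε * 2 :=
    mul_le_mul (mul_le_mul haD hx' hx (ha.trans haD)) h4 (by linarith)
      (mul_nonneg (ha.trans haD) (hx.trans hx'))
  have b3 : 0 ≤ a * x * m' := by positivity
  have b4 : (a - a') * m ≤ τ * 2 := mul_le_mul (by linarith) h2 (by linarith) (by linarith)
  have b5 : 0 ≤ (a - a') * m := mul_nonneg (by linarith) (by linarith)
  have hn : |a * (m' - m) - a * x * m' + (a - a') * m| ≤ 8 * D * ε + 2 * τ := by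
    rw [abs_le] at b1 ⊢
    constructor <;> nlinarith [b1.1, b1.2]
  rw [e, abs_div, abs_of_pos (show 0 < m * m' * (1 - x) by linarith), div_le_iff₀ (by linarith)]
  have : 0 ≤ 8 * D * ε + 2 * τ := (abs_nonneg _).trans hn
  nlinarith

lemma main {n : ℕ} (hn : 2 ≤ n) {χ : Fin (2 * n) → Fin (2 * n) → ℝ} (H : Had (2 * n) χ)
    (hbig : 500 * ((2 * n : ℕ) : ℝ) ^ 2 ≤ 2 ^ (2 * n)) :
    ∃ P Q : Set (E (2 * n)), IsPolytope P ∧ IsPolytope Q ∧ P = -P ∧ Q = -Q ∧ Isotropic P ∧
      Isotropic Q ∧ (facets P).encard ≤ ((2 * n) ^ 2 : ℕ) ∧ (facets Q).encard ≤ ((2 * n) ^ 2 : ℕ) ∧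
      (∀ θ, ‖θ‖ = 1 → |area P θ - area Q θ| ≤ 500 * ((2 * n : ℕ) : ℝ) ^ 2 / 2 ^ (2 * n)) ∧
      1 / 10 < hausdorffDist P Q := by
  have hball := fun c => ball_vol (n := n) c (by omega)
  generalize hd : 2 * n = d at χ H hbig hball ⊢
  have hd4 : 4 ≤ d := by omega
  have hd4' : (4 : ℝ) ≤ d := by exact_mod_cast hd4
  set w : ℝ := √(d : ℝ) with hw
  have hw2 : w ^ 2 = d := Real.sq_sqrt (by positivity)
  have hw0 : 0 ≤ w := Real.sqrt_nonneg _
  have hw1 : 1 ≤ w := by nlinarith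
  have hwd : w ≤ d := by nlinarith
  set C := body χ (d : ℝ) with hC
  set K := body χ (d - w / 8) with hK
  have hKC : K ⊆ C := fun x hx => (mem_cube H x).2 hx.1
  have mC : MeasurableSet C := (body_closed _ _).measurableSet
  have mK : MeasurableSet K := (body_closed _ _).measurableSet
  have cC : IsCompact C := body_compact _ _
  have hcor := corner H (s := w / 8) (by positivity)
  rw [← hC, ← hK] at hcor
  set V : ℝ := 2 ^ d with hV
  have hV0 : 0 < V := by positivity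
  have hVC : (volume C).toReal = V := cube_vol H
  have hr : (volume (C \ K)).toReal ≤ 2 * d := by
    refine ENNReal.toReal_le_of_le_ofReal (by positivity) ((measure_mono hcor).trans
      ((measure_iUnion_fintype_le _ _).trans ((Finset.sum_le_sum fun p _ => hball _).trans ?_)))
    simp
  have hVK : (volume K).toReal = V - (volume (C \ K)).toReal := by
    have := measureReal_add_sdiff (μ := volume) (s := K) (t := C) mK
      (measure_ne_top_of_subset hKC cC.measure_lt_top.ne) cC.measure_lt_top.ne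
    rw [union_eq_right.2 hKC] at this
    simp only [Measure.real] at this
    linarith
  let i0 : Fin d := ⟨0, by omega⟩
  have hint : IntegrableOn (fun x : E d => x i0 * x i0) C :=
    ContinuousOn.integrableOn_compact cC (by fun_prop)
  have hIC : ∫ x in C, x i0 * x i0 = V / 3 := cube_sq H i0
  have hIK : ∫ x in K, x i0 * x i0 = V / 3 - ∫ x in C \ K, x i0 * x i0 := by
    rw [setIntegral_sdiff mK hint hKC, hIC]
    ring
  have hr'0 : 0 ≤ ∫ x in C \ K, x i0 * x i0 := integral_nonneg fun x => mul_self_nonneg _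
  have hr' : ∫ x in C \ K, x i0 * x i0 ≤ 2 * d := by
    refine le_trans ?_ hr
    have := setIntegral_mono_on (μ := volume) (g := fun _ => (1 : ℝ)) (hint.mono_set sdiff_subset)
      (integrableOn_const ((measure_mono sdiff_subset).trans_lt cC.measure_lt_top).ne) (mC.diff mK)
      (fun x hx => by
        have := hx.1.1 i0
        rw [← sq, ← sq_abs]
        nlinarith [abs_nonneg (x i0)])
    simpa [Measure.real] using this
  set r := (volume (C \ K)).toReal with hrdef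
  set r' := ∫ x in C \ K, x i0 * x i0 with hr'def
  have hr0 : 0 ≤ r := ENNReal.toReal_nonneg
  set ε : ℝ := 2 * d / V with hε
  have hεd : ε * d ≤ 1 / 250 := by
    rw [hε, div_mul_eq_mul_div, div_le_iff₀ hV0]
    nlinarith
  have hε0 : 0 ≤ ε := by positivity
  have hε1 : ε ≤ 1 / 12 := by nlinarith
  have hx' : r / V ≤ ε := by rw [hε]; gcongr
  have hy' : r' / V ≤ ε := by rw [hε]; gcongr
  have hVK' : (volume K).toReal = V * (1 - r / V) := by rw [hVK]; field_simp
  have hIK' : ∫ x in K, x i0 * x i0 = V * (1 / 3 - r' / V) := by rw [hIK]; field_simp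
  set m : ℝ := √3 with hm
  set m' : ℝ := √((1 - r / V) / (1 / 3 - r' / V)) with hm'
  have p1 : 0 < 1 - r / V := by linarith
  have p2 : 0 < 1 / 3 - r' / V := by linarith
  have hm0 : 0 < m := by positivity
  have hm2 : m ^ 2 = 3 := Real.sq_sqrt (by norm_num)
  have hm0' : 0 < m' := Real.sqrt_pos.2 (div_pos p1 p2)
  have hm2' : m' ^ 2 * (1 / 3 - r' / V) = 1 - r / V := by
    rw [hm', Real.sq_sqrt (div_pos p1 p2).le, div_mul_cancel₀ _ p2.ne']
  obtain ⟨e1, e2, e3, e4, e5⟩ := est (by positivity) hx' (by positivity) hy' hε1 hm0 hm2 hm0' hm2'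
  obtain ⟨a1, a2, a3⟩ := body_poly hd4 H (c := d) (by positivity) hm0
  obtain ⟨b1, b2, b3⟩ := body_poly hd4 H (c := d - w / 8) (by linarith) hm0'
  refine ⟨m • C, m' • K, a1, b1, a2, b2, iso_smul H hm0 i0 (by rw [hVC]; exact hV0) ?_,
    iso_smul H hm0' i0 (by rw [hVK']; positivity) ?_, a3, b3, fun θ hθ => ?_, ?_⟩
  · rw [hIC, hVC, hm2]
    ring
  · rw [hIK', hVK']
    linear_combination V * hm2'
  · rw [area_smul (by omega) _ hm0, area_smul (by omega) _ hm0']
    have hθC : θ ∈ C := (mem_cube H θ).2 fun i => by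
      simpa [hθ] using PiLp.norm_apply_le θ i
    have hθθ : ⟪θ, θ⟫ = 1 := by rw [real_inner_self_eq_norm_sq, hθ]; norm_num
    have hS := sec_le (by omega) (body_convex χ d) mC hθ hθC (ρ := 1) (v := V) one_pos
      (by rw [hθθ, abs_one]) (by rw [← hVC, ENNReal.ofReal_toReal cC.measure_lt_top.ne])
    rw [← hC] at hS
    set Z : Set (E d) := {x | ⟪θ, x⟫ = 0} with hZ
    have hfin : μHE[d - 1] (C ∩ Z) ≠ ⊤ := (hS.trans_lt ENNReal.ofReal_lt_top).ne
    have hle : μHE[d - 1] (K ∩ Z) ≤ μHE[d - 1] (C ∩ Z) := measure_mono (inter_subset_inter_left _ hKC)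
    have hsub : μHE[d - 1] (C ∩ Z) ≤ μHE[d - 1] (K ∩ Z) + ENNReal.ofReal (2 * d * (32 * d)) := by
      have h1 : C ∩ Z ⊆ K ∩ Z ∪ ⋃ p : Bool × Fin d, closedBall (WithLp.toLp 2 fun i =>
          (if p.1 then (1 : ℝ) else -1) * χ p.2 i) (w / 8) ∩ Z := by
        rintro x ⟨hx, hz⟩
        by_cases hxK : x ∈ K
        · exact Or.inl ⟨hxK, hz⟩
        · obtain ⟨p, hp⟩ := mem_iUnion.1 (hcor ⟨hx, hxK⟩)
          exact Or.inr (mem_iUnion.2 ⟨p, hp, hz⟩)
      refine (measure_mono h1).trans ((measure_union_le _ _).trans (add_le_add_right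
        ((measure_iUnion_fintype_le _ _).trans ((Finset.sum_le_sum fun p _ =>
          ball_sec (by omega) _ (by linarith) (hball _) hθ).trans (le_of_eq ?_))) _))
      rw [ENNReal.ofReal_mul (p := 2 * d) (by positivity)]
      simp
    have hS1 : (μHE[d - 1] (C ∩ Z)).toReal ≤ 4 * d / 1 * V :=
      ENNReal.toReal_le_of_le_ofReal (by positivity) hS
    have hS2 := ENNReal.toReal_mono hfin hle
    have hS3 := ENNReal.toReal_mono (ENNReal.add_ne_top.2 ⟨ne_top_of_le_ne_top hfin hle,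
      ENNReal.ofReal_ne_top⟩) hsub
    rw [ENNReal.toReal_add (ne_top_of_le_ne_top hfin hle) ENNReal.ofReal_ne_top,
      ENNReal.toReal_ofReal (by positivity)] at hS3
    unfold area
    rw [← hZ, hVC, hVK', ← div_div]
    refine (est2 (τ := 2 * d * (32 * d) / V) (D := 4 * d) (by positivity) hx' hε1 e1 e2 e3 e4 e5
      (by positivity) (by rw [div_le_iff₀ hV0]; linarith) (by gcongr)
      (by rw [← add_div]; gcongr)).trans ?_
    rw [hε, show 16 * (4 * (d : ℝ)) * (2 * d / V) + 4 * (2 * d * (32 * d) / V) = 384 * d ^ 2 / V by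
      ring]
    gcongr
    norm_num
  · obtain ⟨j0, hj0⟩ := H.one
    let o : E d := WithLp.toLp 2 fun _ => 1
    have ho : ‖o‖ = w := by simp [o, EuclideanSpace.norm_eq, hw]
    have hp : m • o ∈ m • C := smul_mem_smul_set ((mem_cube H o).2 fun i => by simp [o])
    have hQ : (m' • K).Nonempty := b1.2.2.mono interior_subset
    refine lt_of_lt_of_le ?_ (infDist_le_hausdorffDist_of_mem hp
      (hausdorffEDist_ne_top_of_nonempty_of_bounded ⟨_, hp⟩ hQ a1.2.1.isBounded b1.2.1.isBounded))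
    refine lt_of_lt_of_le (show (1 : ℝ) / 10 < 101 / 1000 by norm_num) ((le_infDist hQ).2 ?_)
    intro q hq
    have h1 := (le_abs_self _).trans (((smul_body χ _ hm0' q).1 hq).2 j0)
    simp only [hj0, one_mul] at h1
    have h2 := real_inner_le_norm o (m • o - q)
    have h3 : ⟪o, q⟫ = ∑ i, q i := by simp [o, PiLp.inner_apply]
    rw [inner_sub_right, inner_smul_right, real_inner_self_eq_norm_sq, ho, h3] at h2
    rw [dist_eq_norm]
    have h4 : w * (m' / 8 - (m' - m) * w) ≤ w * ‖m • o - q‖ := by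
      rw [← hw2] at h1
      nlinarith
    have h5 := le_of_mul_le_mul_left h4 (by linarith)
    have h6 : (m' - m) * w ≤ 6 * ε * d :=
      mul_le_mul ((le_abs_self _).trans e5) hwd hw0 (by positivity)
    nlinarith

theorem result (t' : ℕ) : ∃ d : ℕ, 2 ≤ d ∧ ∃ P Q : Set (E d), IsPolytope P ∧ IsPolytope Q ∧
    P = -P ∧ Q = -Q ∧ Isotropic P ∧ Isotropic Q ∧ (facets P).encard ≤ (d ^ 2 : ℕ) ∧
    (facets Q).encard ≤ (d ^ 2 : ℕ) ∧
    (∀ θ : E d, ‖θ‖ = 1 → |area P θ - area Q θ| ≤ 1 / (d : ℝ) ^ t') ∧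
    1 / 10 < hausdorffDist P Q := by
  have h := (tendsto_pow_const_div_const_pow_of_one_lt (t' + 2) (show (1 : ℝ) < 2 by norm_num)).eventually
    (ge_mem_nhds (show (0 : ℝ) < 1 / 500 by norm_num))
  obtain ⟨N, hN⟩ := Filter.eventually_atTop.1 h
  obtain ⟨χ, H⟩ := exists_had (N + 1 + 1)
  have hN1 : N + 1 < 2 ^ (N + 1) := Nat.lt_two_pow_self
  have hN2 : 2 ≤ 2 ^ (N + 1) := by
    rw [pow_succ]
    have := Nat.one_le_two_pow (n := N)
    omega
  revert χ
  rw [pow_succ' 2 (N + 1)]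
  generalize 2 ^ (N + 1) = n at hN1 hN2 ⊢
  intro χ H
  have h1 := hN (2 * n) (by omega)
  have hd1 : (1 : ℝ) ≤ (2 * n : ℕ) := by exact_mod_cast (show 1 ≤ 2 * n by omega)
  rw [div_le_iff₀ (by positivity), pow_add] at h1
  have h2 : (1 : ℝ) ≤ ((2 * n : ℕ) : ℝ) ^ t' := one_le_pow₀ hd1
  obtain ⟨P, Q, a1, a2, a3, a4, a5, a6, a7, a8, a9, a10⟩ := main hN2 H
    (by nlinarith [sq_nonneg ((2 * n : ℕ) : ℝ)])
  refine ⟨2 * n, by omega, P, Q, a1, a2, a3, a4, a5, a6, a7, a8, fun θ hθ => (a9 θ hθ).trans ?_, a10⟩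
  rw [div_le_div_iff₀ (by positivity) (by positivity)]
  linarith

end Pool.Agent.Results.MP_9f0ab0_gt.Unstable
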